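import Pool.Agent.helper63.TI.SpecA
import Pool.Agent.helper49.TI.GNK

/-!
# Project ti (MP_3703a7_ag), row NRM: congruence subgroups, normalised by the automorphisms fixing the `l`-th roots of unity
-/

set_option autoImplicit false

namespace Pool.Agent.TI

open Polynomial NumberField Pool.Agent.GJ Pool.Agent.TK Pool.Agent.TQ Pool.Agent.TFQ Pool.Agent.TD Pool.Agent.AQ
open Pool.Agent.FJ (VT Om chiO IsFrobO rf rs)
open scoped TensorProduct

noncomputable section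

/-- `g = 1` modulo `q^K` on the lattice -/
def NRM_C {l : ℕ} [Fact l.Prime] (D : Dat l) (q K : ℕ) [Fact q.Prime] (i : Fin D.k) (g : Om ≃+* Om) : Prop :=
  ∀ h : D.Fix g, ∀ f ∈ TZ D q i, ∃ f' ∈ TZ D q i, galA q h i f = f + (q : ℚ_[q]) ^ K • f'

section
variable {l : ℕ} [Fact l.Prime] (D : Dat l) (q K : ℕ) [Fact q.Prime] (i : Fin D.k)

theorem NRM_st (hBGP : AQ.BGP_stmt) (σ : Om ≃+* Om) (h : PF D σ) (f : VA D q i) (hf : f ∈ TZ D q i) :
    galP q h i f ∈ TZ D q i :=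
  ((hBGP l q D).2.2.2 i).2.2.2.2 σ h f hf

theorem NRM_pf (h0 : ∀ x : Om, x ^ l = 1 → (1 : Om ≃+* Om) x = x) (g : Om ≃+* Om) (hg : D.Fix g)
    (hgl : ∀ x : Om, x ^ l = 1 → g x = x) : PF D g :=
  ⟨hgl, fun i => ⟨1, ⟨fun j => hg i j, fun _ => rfl⟩⟩⟩

theorem NRM_one (hBGP : AQ.BGP_stmt) : NRM_C D q K i 1 := by
  intro h f hf
  refine ⟨0, (TZ D q i).zero_mem, ?_⟩
  have hP : PF D 1 := (hBGP l q D).1
  rw [smul_zero, add_zero, ← ((hBGP l q D).2.2.2 i).2.2.1 1 hP h f]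
  exact ((hBGP l q D).2.2.2 i).2.1 hP f

/-- conjugates, products and inverses: the general lemma -/
theorem NRM_conj (hBGP : AQ.BGP_stmt) (γ γ' x y : Om ≃+* Om) (hγ : PF D γ) (hγ' : PF D γ') (hx : PF D x) (hxF : D.Fix x)
    (hy : PF D y) (e : γ * γ' = 1) (ey : y = γ * x * γ') (hC : NRM_C D q K i x) : NRM_C D q K i y := by
  intro h f hf
  obtain ⟨-, hmul, -, hi⟩ := hBGP l q D
  obtain ⟨b1, b2, b3, -, b5⟩ := hi i
  have h1 : PF D (γ * x) := hmul γ x hγ hx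
  have h1' : PF D (γ * x * γ') := hmul _ _ h1 hγ'
  subst ey
  obtain ⟨f1, hf1, e1⟩ := hC hxF (galP q hγ' i f) (b5 γ' hγ' f hf)
  refine ⟨galP q hγ i f1, b5 γ hγ f1 hf1, ?_⟩
  rw [← b3 _ hy h f, b1 (γ * x) γ' h1 hγ' hy f, b1 γ x hγ hx h1, b3 x hx hxF, e1, map_add, map_smul]
  congr 1
  have h2 : PF D (γ * γ') := hmul _ _ hγ hγ'
  rw [← b1 γ γ' hγ hγ' h2 f]
  have h3 : ∀ (z : Om ≃+* Om) (hz : PF D z), z = 1 → galP q hz i f = f := by
    intro z hz ez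
    subst ez
    exact b2 hz f
  exact h3 _ h2 e

theorem NRM_mul (hBGP : AQ.BGP_stmt) (g g' : Om ≃+* Om) (hg : PF D g) (hg' : PF D g') (hF : D.Fix g) (hF' : D.Fix g')
    (h1 : NRM_C D q K i g) (h2 : NRM_C D q K i g') : NRM_C D q K i (g * g') := by
  intro h f hf
  obtain ⟨-, hmul, -, hi⟩ := hBGP l q D
  obtain ⟨b1, b2, b3, -, b5⟩ := hi i
  obtain ⟨f1, hf1, e1⟩ := h2 hF' f hf
  obtain ⟨f2, hf2, e2⟩ := h1 hF f hf
  have hm : PF D (g * g') := hmul g g' hg hg'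
  refine ⟨f2 + galP q hg i f1, (TZ D q i).add_mem hf2 (b5 g hg f1 hf1), ?_⟩
  rw [← b3 _ hm h f, b1 g g' hg hg' hm f, b3 g' hg' hF' f, e1, map_add, map_smul, b3 g hg hF f, e2, smul_add, add_assoc]

theorem NRM_inv (hBGP : AQ.BGP_stmt) (g g' : Om ≃+* Om) (e : g' * g = 1) (hg : PF D g) (hg' : PF D g') (hF : D.Fix g)
    (h1 : NRM_C D q K i g) : NRM_C D q K i g' := by
  intro h f hf
  obtain ⟨-, hmul, -, hi⟩ := hBGP l q D
  obtain ⟨b1, b2, b3, -, b5⟩ := hi i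
  obtain ⟨f1, hf1, e1⟩ := h1 hF f hf
  refine ⟨-(galP q hg' i f1), (TZ D q i).neg_mem (b5 g' hg' f1 hf1), ?_⟩
  have hm : PF D (g' * g) := hmul g' g hg' hg
  have h3 : ∀ (z : Om ≃+* Om) (hz : PF D z), z = 1 → galP q hz i f = f := by
    intro z hz ez
    subst ez
    exact b2 hz f
  have e2 : galP q hg' i (galP q hg i f) = f := by
    rw [← b1 g' g hg' hg hm f]
    exact h3 _ hm e
  have e3 : galP q hg i f = f + (q : ℚ_[q]) ^ K • f1 := by
    rw [b3 g hg hF f, e1]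
  rw [e3, map_add, map_smul] at e2
  rw [← b3 g' hg' h f, smul_neg]
  exact eq_add_neg_of_add_eq e2

end

theorem NRM (hBGP : AQ.BGP_stmt) (hNB1 : TQ.NB1_stmt) (hNBK : TD.NBK_stmt) (hNC2 : TQ.NC2_stmt) (hVF : TD.VF_stmt)
    (hDD : GJ.DD_stmt) : NRM_stmt := by
  classical
  intro l q _ _ hl D hn hPF K
  obtain ⟨-, hmul, hinvP, -⟩ := hBGP l q D
  have hpf : ∀ g : Om ≃+* Om, (∀ x : Om, x ^ l = 1 → g x = x) → PF D g := hPF
  have hS : ∀ i : Fin D.k, ∃ S : Finset Om, ∀ σ : Om ≃+* Om, (∀ x ∈ S, σ x = x) →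
      GNK_C l (D.n i) q K (D.μ i) (D.a i) σ := fun i =>
    GNK_S l (D.n i) q K (D.μ i) (D.a i) hNC2 hVF hDD hl (hn i)
  choose S hS using hS
  have hl0 : 0 < l := (Fact.out : l.Prime).pos
  have hqK : 0 < q ^ K := pow_pos (Fact.out : q.Prime).pos K
  let N : Subgroup (Om ≃+* Om) :=
    { carrier := {g | D.Fix g ∧ (∀ x : Om, x ^ l = 1 → g x = x) ∧ (∀ x : Om, x ^ (q ^ K) = 1 → g x = x) ∧
        ∀ i, NRM_C D q K i g}
      one_mem' := ⟨fun _ _ => rfl, fun _ _ => rfl, fun _ _ => rfl, fun i => NRM_one D q K i hBGP⟩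
      mul_mem' := by
        rintro g g' ⟨h1, h2, h3, h4⟩ ⟨h1', h2', h3', h4'⟩
        refine ⟨fun i j => ?_, fun x hx => ?_, fun x hx => ?_, fun i =>
          NRM_mul D q K i hBGP g g' (hpf g h2) (hpf g' h2') h1 h1' (h4 i) (h4' i)⟩
        · change g (g' (D.a i j)) = D.a i j
          rw [h1' i j, h1 i j]
        · change g (g' x) = x
          rw [h2' x hx, h2 x hx]
        · change g (g' x) = x
          rw [h3' x hx, h3 x hx]
      inv_mem' := by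
        rintro g ⟨h1, h2, h3, h4⟩
        have h2' : ∀ x : Om, x ^ l = 1 → g⁻¹ x = x := by
          intro x hx
          change g.symm x = x
          rw [RingEquiv.symm_apply_eq, h2 x hx]
        refine ⟨fun i j => ?_, h2', fun x hx => ?_, fun i =>
          NRM_inv D q K i hBGP g g⁻¹ (inv_mul_cancel g) (hpf g h2) (hpf g⁻¹ h2') h1 (h4 i)⟩
        · change g.symm (D.a i j) = D.a i j
          rw [RingEquiv.symm_apply_eq, h1 i j]
        · change g.symm x = x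
          rw [RingEquiv.symm_apply_eq, h3 x hx] }
  have hN : ∀ g, g ∈ N ↔ D.Fix g ∧ (∀ x : Om, x ^ l = 1 → g x = x) ∧ (∀ x : Om, x ^ (q ^ K) = 1 → g x = x) ∧
        ∀ i, NRM_C D q K i g := fun g => Iff.rfl
  refine ⟨N, (Finset.univ.biUnion fun i : Fin D.k => Finset.univ.image (D.a i)) ∪ nthRootsFinset l (1 : Om) ∪
    nthRootsFinset (q ^ K) (1 : Om) ∪ (Finset.univ.biUnion fun i : Fin D.k => S i), ?_, ?_, ?_, ?_⟩
  · intro g hg
    have hg' : ∀ x ∈ (Finset.univ.biUnion fun i : Fin D.k => Finset.univ.image (D.a i)) ∪ nthRootsFinset l (1 : Om) ∪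
      nthRootsFinset (q ^ K) (1 : Om) ∪ (Finset.univ.biUnion fun i : Fin D.k => S i), g x = x := hg
    simp only [Finset.mem_union, Finset.mem_biUnion, Finset.mem_univ, true_and, Finset.mem_image] at hg'
    refine (hN g).2 ⟨fun i j => hg' _ (Or.inl (Or.inl (Or.inl ⟨i, j, rfl⟩))),
      fun x hx => hg' x (Or.inl (Or.inl (Or.inr ((mem_nthRootsFinset hl0 1).2 hx)))),
      fun x hx => hg' x (Or.inl (Or.inr ((mem_nthRootsFinset hqK 1).2 hx))), fun i h f hf => ?_⟩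
    obtain ⟨f', hf', e⟩ := hS i g (fun x hx => hg' x (Or.inr ⟨i, hx⟩)) (h i) f hf
    refine ⟨f', hf', ?_⟩
    rw [← e]
    change VT.map q (actA g (h i) 1) f = f + (VT.map q (actA g (h i) 1) f - f)
    abel
  · intro g hg
    exact ⟨((hN g).1 hg).1, ((hN g).1 hg).2.1⟩
  · intro γ hγ x hx
    obtain ⟨h1, h2, h3, h4⟩ := (hN x).1 hx
    have hγP : PF D γ := hpf γ hγ
    have hγ' : ∀ x : Om, x ^ l = 1 → γ⁻¹ x = x := by
      intro x hx
      change γ.symm x = x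
      rw [RingEquiv.symm_apply_eq, hγ x hx]
    have hγP' : PF D γ⁻¹ := hpf γ⁻¹ hγ'
    have hyl : ∀ z : Om, z ^ l = 1 → (γ * x * γ⁻¹) z = z := by
      intro z hz
      change γ (x (γ⁻¹ z)) = z
      rw [hγ' z hz, h2 z hz, hγ z hz]
    refine (hN _).2 ⟨fun i j => ?_, hyl, fun y hy => ?_, fun i =>
      NRM_conj D q K i hBGP γ γ⁻¹ x _ hγP hγP' (hpf x h2) h1 (hpf _ hyl) (mul_inv_cancel γ) rfl (h4 i)⟩
    · change γ (x (γ⁻¹ (D.a i j))) = D.a i j
      obtain ⟨π, hπ⟩ := hγP'.2 i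
      rw [hπ.pt j, h1 i (π j), ← hπ.pt j]
      exact γ.apply_symm_apply (D.a i j)
    · change γ (x (γ.symm y)) = y
      rw [h3 (γ.symm y) (by rw [← map_pow, hy, map_one]), RingEquiv.apply_symm_apply]
  · intro g hg
    obtain ⟨h1, h2, h3, h4⟩ := (hN g).1 hg
    exact ⟨GNK_chi q K g h3, fun h i f hf => h4 i h f hf⟩

end

end Pool.Agent.TI
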